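import Pool.Agent.Lib.MP_452a87_nt.SpecN

/-!
# Large transcendence degree: the iteration
-/

set_option autoImplicit false

namespace Pool.Agent.SMQ

open MvPolynomial

namespace LTDAux

lemma two_le_exp : (2 : ℝ) ≤ Real.exp 1 := by
  have := Real.add_one_le_exp (1 : ℝ)
  linarith

lemma two_pow_le (n : ℕ) : (2 : ℝ) ^ n ≤ Real.exp n := by
  calc (2 : ℝ) ^ n ≤ Real.exp 1 ^ n := pow_le_pow_left₀ (by norm_num) two_le_exp _
    _ = Real.exp n := by rw [← Real.exp_nat_mul, mul_one]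

/-- The distance estimate. -/
lemma dist_bound (κ : ℕ) (M E b : ℝ) (hκ : 1 ≤ κ) (hM : 1 ≤ M) (hE : 4 * (κ : ℝ) ^ 2 + 4 * κ * M ≤ E)
    (h : b ^ κ ≤ 2 * Real.exp (-E) * 2 ^ (κ ^ 2)) : b ≤ Real.exp (-M) / 8 := by
  by_contra hcon
  push Not at hcon
  have hκr : (1 : ℝ) ≤ κ := by exact_mod_cast hκ
  have h8 : (8 : ℝ) ≤ Real.exp 3 := by
    have := two_pow_le 3
    norm_num at this
    exact this
  have h1 : Real.exp (-(M + 3)) ≤ Real.exp (-M) / 8 := by
    rw [le_div_iff₀ (by norm_num : (0 : ℝ) < 8)]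
    calc Real.exp (-(M + 3)) * 8 ≤ Real.exp (-(M + 3)) * Real.exp 3 := by gcongr
      _ = Real.exp (-M) := by
          rw [← Real.exp_add]
          congr 1
          ring
  have h2 : Real.exp (-(M + 3)) ^ κ ≤ b ^ κ := pow_le_pow_left₀ (Real.exp_pos _).le (h1.trans hcon.le) _
  have h3 : Real.exp (-(M + 3)) ^ κ = Real.exp (κ * (-(M + 3))) := by rw [← Real.exp_nat_mul]
  have h4 : 2 * Real.exp (-E) * 2 ^ (κ ^ 2) ≤ Real.exp (1 + -E + (κ : ℝ) ^ 2) := by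
    rw [Real.exp_add, Real.exp_add]
    have := two_pow_le (κ ^ 2)
    push_cast at this
    have := two_le_exp
    gcongr
  have h5 : Real.exp (κ * (-(M + 3))) ≤ Real.exp (1 + -E + (κ : ℝ) ^ 2) := by
    rw [← h3]
    exact h2.trans (h.trans h4)
  have h6 := Real.exp_le_exp.1 h5
  nlinarith

lemma exp_half (M x : ℝ) (h : M + 1 ≤ x) : Real.exp (-x) ≤ Real.exp (-M) / 2 := by
  rw [le_div_iff₀ (by norm_num : (0 : ℝ) < 2)]
  calc Real.exp (-x) * 2 ≤ Real.exp (-(M + 1)) * Real.exp 1 := by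
        have := two_le_exp
        have h1 : Real.exp (-x) ≤ Real.exp (-(M + 1)) := Real.exp_le_exp.2 (by linarith)
        gcongr
    _ = Real.exp (-M) := by
        rw [← Real.exp_add]
        congr 1
        ring

end LTDAux

open LTDAux

theorem pLTD (hStg : S_Stg) (hNumI : S_NumI) : S_LTD := by
  intro m t a L hInd hL hTr
  by_contra hcon
  push Not at hcon
  obtain ⟨A, hA1, hPPA, hS1, hS2⟩ := hStg m t a L hInd hL hTr hcon
  obtain ⟨N, hAN, hN2, hnum⟩ := hNumI t (2 ^ m) A hA1 hcon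
  set D : ℕ := 2 ^ m with hD
  have hN1 : 1 ≤ N := by omega
  have hspos : ∀ i : ℕ, 1 ≤ A ^ (i + 1) * N ^ (i * (2 * t + 5 - i)) := fun i =>
    Nat.mul_pos (Nat.pow_pos hA1) (Nat.pow_pos hN1)
  have hNi : ∀ i : ℕ, 1 ≤ N ^ i := fun i => Nat.pow_pos hN1
  have hANi : ∀ i : ℕ, 1 ≤ i → A ≤ N ^ i := fun i hi => hAN.trans (Nat.le_self_pow (by omega) N)
  have hclaim : ∀ i : ℕ, i ≤ t → ∃ ξ y : Finset (Fin m) → ℂ, Tr ξ (t - i) ∧
      PP ξ (t - i) (A ^ (i + 1) * N ^ (i * (2 * t + 5 - i))) ∧ Spc ξ y ∧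
      ∀ U, ‖y U - th a L U‖ ≤ Real.exp (-(((N ^ (t + 2 - i) : ℕ) : ℝ) ^ (D + 1))) := by
    intro i
    induction i with
    | zero =>
      intro _
      refine ⟨th a L, th a L, by simpa using hTr, by simpa using hPPA, Spc.refl _, fun U => ?_⟩
      rw [sub_self, norm_zero]
      exact (Real.exp_pos _).le
    | succ i ih =>
      intro hi
      obtain ⟨ξ, y, h1, h2, h3, h4⟩ := ih (by omega)
      obtain ⟨hna, hnb, hnc⟩ := hnum i (by omega)
      have hnb := hnb (by omega)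
      have e1 : t - i = (t - (i + 1)) + 1 := by omega
      rw [e1] at h1 h2
      obtain ⟨ξ', y', g1, g2, g3, g4⟩ := hS1 (N ^ (t + 2 - i)) (hANi _ (by omega)) (t - (i + 1)) ξ y
        (A ^ (i + 1) * N ^ (i * (2 * t + 5 - i))) (by omega) (hspos i) h1 h2 h3 h4 hna
      refine ⟨ξ', y', g1, ?_, g3, fun U => ?_⟩
      · rw [hnc] at g2
        exact g2
      · set κ : ℕ := A * (A ^ (i + 1) * N ^ (i * (2 * t + 5 - i))) * (N ^ (t + 2 - i)) ^ 2 with hκ
        have hκ1 : 1 ≤ κ := Nat.mul_pos (Nat.mul_pos hA1 (hspos i)) (Nat.pow_pos (hNi _))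
        have e2 : t + 2 - (i + 1) = t + 1 - i := by omega
        rw [e2]
        set x : ℕ := N ^ (t + 1 - i) with hx
        have hx1 : 1 ≤ x := hNi _
        have hxr : (1 : ℝ) ≤ x := by exact_mod_cast hx1
        have e3 : N ^ (t + 2 - i) = N * x := by
          rw [hx, ← pow_succ']
          congr 1
          omega
        set M : ℝ := (x : ℝ) ^ (D + 1) with hM
        have hM1 : 1 ≤ M := one_le_pow₀ hxr
        have hE : 4 * (κ : ℝ) ^ 2 + 4 * κ * M ≤ ((N ^ (t + 2 - i) : ℕ) : ℝ) ^ (D - 2 * t - 2) := by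
          have : ((4 * κ ^ 2 + 4 * κ * x ^ (D + 1) : ℕ) : ℝ) ≤ (((N ^ (t + 2 - i)) ^ (D - 2 * t - 2) : ℕ) : ℝ) := by
            exact_mod_cast hnb
          push_cast at this ⊢
          exact this
        have hb := dist_bound κ M _ (‖y' U - y U‖ / 4) hκ1 hM1 hE (g4 U)
        have hyy : ‖y' U - y U‖ ≤ Real.exp (-M) / 2 := by linarith
        have hyt : ‖y U - th a L U‖ ≤ Real.exp (-M) / 2 := by
          refine (h4 U).trans (exp_half M _ ?_)
          rw [e3]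
          push_cast
          have hN2r : (2 : ℝ) ≤ N := by exact_mod_cast hN2
          have h5 : (2 : ℝ) * M ≤ (N * x) ^ (D + 1) := by
            rw [mul_pow]
            apply mul_le_mul_of_nonneg_right _ (by positivity)
            calc (2 : ℝ) ≤ N := hN2r
              _ ≤ (N : ℝ) ^ (D + 1) := le_self_pow₀ (by linarith) (by omega)
          linarith
        calc ‖y' U - th a L U‖ = ‖(y' U - y U) + (y U - th a L U)‖ := by ring_nf
          _ ≤ ‖y' U - y U‖ + ‖y U - th a L U‖ := norm_add_le _ _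
          _ ≤ Real.exp (-M) := by linarith
  obtain ⟨ξ, y, h1, h2, h3, h4⟩ := hclaim t le_rfl
  obtain ⟨hna, -, -⟩ := hnum t le_rfl
  rw [Nat.sub_self] at h2
  have h5 := hS2 (N ^ (t + 2 - t)) (hANi _ (by omega)) ξ y _ (hspos t) h2 h3 h4
  set κ : ℕ := A * (A ^ (t + 1) * N ^ (t * (2 * t + 5 - t))) * (N ^ (t + 2 - t)) ^ 2 with hκ
  have hκ1 : 1 ≤ κ := Nat.mul_pos (Nat.mul_pos hA1 (hspos t)) (Nat.pow_pos (hNi _))
  have hκr : (1 : ℝ) ≤ κ := by exact_mod_cast hκ1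
  have hE : (κ : ℝ) ^ 2 + 2 ≤ ((N ^ (t + 2 - t) : ℕ) : ℝ) ^ (D - 2 * t - 2) := by
    have : ((κ ^ 2 + 2 : ℕ) : ℝ) ≤ (((N ^ (t + 2 - t)) ^ (D - 2 * t - 2) : ℕ) : ℝ) := by exact_mod_cast hna
    push_cast at this ⊢
    exact this
  have h6 : 2 * Real.exp (-((N ^ (t + 2 - t) : ℕ) : ℝ) ^ (D - 2 * t - 2)) * 2 ^ κ ≤
      Real.exp (1 + -((κ : ℝ) ^ 2 + 2) + κ) := by
    rw [Real.exp_add, Real.exp_add]
    have a1 := two_pow_le κ
    have a2 := two_le_exp
    have a3 : Real.exp (-((N ^ (t + 2 - t) : ℕ) : ℝ) ^ (D - 2 * t - 2)) ≤ Real.exp (-((κ : ℝ) ^ 2 + 2)) :=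
      Real.exp_le_exp.2 (by linarith)
    gcongr
  have h7 : Real.exp (1 + -((κ : ℝ) ^ 2 + 2) + κ) < 1 := by
    rw [Real.exp_lt_one_iff]
    nlinarith
  exact absurd (h5.trans h6) (not_le.2 h7)

end Pool.Agent.SMQ
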