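import Pool.Agent.Lib.MP_452a87_nt.SpecN

/-!
# MP_452a87_nt, N/N0: specialization of the relation (helper77)
-/

set_option autoImplicit false

namespace Pool.Agent.SMQ

open MvPolynomial

namespace N0Aux

/-- composition of evaluations -/
theorem aeval_aeval {σ τ : Type} {R : Type} [CommRing R] (ψ : MvPolynomial τ R →+* ℂ)
    (g : σ → MvPolynomial τ R) (E : MvPolynomial σ ℤ) :
    ψ (aeval g E) = aeval (fun s => ψ (g s)) E := by
  induction E using MvPolynomial.induction_on with
  | C a => simp
  | add p q hp hq => rw [map_add, map_add, map_add, hp, hq]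
  | mul_X p i hp => rw [map_mul, map_mul, map_mul, hp, aeval_X, aeval_X]

/-- a polynomial which vanishes at all integer points -/
theorem zero_of_int {τ : Type} (H : MvPolynomial τ ℂ)
    (h : ∀ u : τ → ℤ, eval (fun p => (u p : ℂ)) H = 0) : H = 0 := by
  refine MvPolynomial.funext_set (fun _ => Set.range (Int.cast : ℤ → ℂ))
    (fun _ => Set.infinite_range_of_injective Int.cast_injective) fun x hx => ?_
  have h1 : ∀ p, ∃ n : ℤ, (n : ℂ) = x p := fun p => hx p (Set.mem_univ p)
  choose u hu using h1
  have h2 : x = fun p => (u p : ℂ) := funext fun p => (hu p).symm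
  rw [h2, h, map_zero]

end N0Aux

open N0Aux in
theorem pN0 : S_N0 := by
  intro ι _ _ r ξ y f E hs hE
  -- the values at integer points
  have h1 : ∀ u : Fin r × ι → ℤ,
      aeval (ev (aeval y f) (Sum.elim (fun p => (u p : ℂ)) (psi (fun p => (u p : ℂ)) y))) E =
        0 := by
    intro u
    let g : Option (BU ι r) → MvPolynomial ι ℤ :=
      ev f (Sum.elim (fun p => C (u p)) (fun i => ∑ j, C (u (i, j)) * X j))
    have h2 : ∀ x : ι → ℂ, aeval x (aeval g E) =
        aeval (ev (aeval x f) (Sum.elim (fun p => (u p : ℂ)) (psi (fun p => (u p : ℂ)) x))) E := by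
      intro x
      have h3 := aeval_aeval (aeval x : MvPolynomial ι ℤ →ₐ[ℤ] ℂ).toRingHom g E
      refine h3.trans ?_
      have h4 : (fun s => (aeval x : MvPolynomial ι ℤ →ₐ[ℤ] ℂ).toRingHom (g s)) =
          ev (aeval x f) (Sum.elim (fun p => (u p : ℂ)) (psi (fun p => (u p : ℂ)) x)) := by
        funext s
        rcases s with _ | p | i
        · rfl
        · show aeval x (C (u p)) = (u p : ℂ)
          rw [aeval_C]
          rfl
        · show aeval x (∑ j, C (u (i, j)) * X j) = ∑ j, (u (i, j) : ℂ) * x j
          rw [map_sum]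
          refine Finset.sum_congr rfl fun j _ => ?_
          rw [map_mul, aeval_C, aeval_X]
          rfl
      rw [h4]
    rw [← h2]
    refine hs _ ?_
    rw [h2]
    exact hE _
  -- the polynomial in `u`
  let g' : Option (BU ι r) → MvPolynomial (Fin r × ι) ℂ :=
    ev (C (aeval y f)) (Sum.elim (fun p => X p) (fun i => ∑ j, X (i, j) * C (y j)))
  have h5 : ∀ u : Fin r × ι → ℂ, eval u (aeval g' E) =
      aeval (ev (aeval y f) (Sum.elim u (psi u y))) E := by
    intro u
    refine (aeval_aeval (eval u) g' E).trans ?_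
    have h6 : (fun s => eval u (g' s)) = ev (aeval y f) (Sum.elim u (psi u y)) := by
      funext s
      rcases s with _ | p | i
      · exact eval_C _
      · exact eval_X _
      · show eval u (∑ j, X (i, j) * C (y j)) = ∑ j, u (i, j) * y j
        rw [map_sum]
        refine Finset.sum_congr rfl fun j _ => ?_
        rw [map_mul, eval_X, eval_C]
    rw [h6]
  have h7 : aeval g' E = 0 := zero_of_int _ fun u => (h5 _).trans (h1 u)
  intro u
  rw [← h5, h7, map_zero]

end Pool.Agent.SMQ
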