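import Pool.Agent.Lib.MP_452a87_nt.SpecN

set_option autoImplicit false

namespace Pool.Agent.SMQ

open MvPolynomial

namespace N1Aux

lemma card_supp {σ : Type} [Fintype σ] [DecidableEq σ] (E : MvPolynomial σ ℤ) (k : ℕ) (h : E.totalDegree ≤ k) :
    E.support.card ≤ (k + 1) ^ Fintype.card σ := by
  classical
  have h1 : E.support.card ≤ (Fintype.piFinset (fun _ : σ => Finset.range (k + 1))).card := by
    refine Finset.card_le_card_of_injOn (fun d : σ →₀ ℕ => (d : σ → ℕ)) ?_ ?_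
    · intro d hd
      simp only [Fintype.coe_piFinset, Finset.coe_range, Set.mem_pi, Set.mem_univ, Set.mem_Iio, forall_const]
      intro i
      have h2 := MvPolynomial.le_totalDegree hd
      rw [Finsupp.sum_fintype _ _ (fun _ => rfl)] at h2
      have h3 : d i ≤ ∑ i, d i := Finset.single_le_sum (f := fun i => d i) (fun _ _ => Nat.zero_le _) (Finset.mem_univ i)
      omega
    · intro d _ d' _ hdd
      exact DFunLike.coe_injective hdd
  refine h1.trans ?_
  rw [Fintype.card_piFinset]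
  simp

lemma aeval_supp {σ : Type} [Fintype σ] (E : MvPolynomial σ ℤ) (x : σ → ℂ) :
    aeval x E = ∑ d ∈ E.support, ((E.coeff d : ℤ) : ℂ) * ∏ i, x i ^ d i := by
  rw [aeval_def, eval₂_eq']
  rfl

lemma diff_le {β : Type} [Fintype β] (z : ℂ) (s : β → ℂ) (R : ℝ) (hR : 1 ≤ R) (k : ℕ) (hz : ‖z‖ ≤ 1)
    (hs : ∀ b, ‖s b‖ ≤ R) (d : Option β →₀ ℕ) (hd : ∑ i, d i ≤ k) :
    ‖∏ i, ev 0 s i ^ d i - ∏ i, ev z s i ^ d i‖ ≤ ‖z‖ * R ^ k := by
  rw [Fintype.prod_option, Fintype.prod_option]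
  simp only [ev_none, ev_some]
  rw [← sub_mul, norm_mul]
  refine mul_le_mul ?_ ?_ (norm_nonneg _) (norm_nonneg _)
  · rcases Nat.eq_zero_or_pos (d none) with h | h
    · rw [h]
      simp
    · rw [zero_pow h.ne', zero_sub, norm_neg, norm_pow]
      exact pow_le_of_le_one (norm_nonneg _) hz h.ne'
  · rw [norm_prod]
    calc ∏ b, ‖s b ^ d (some b)‖ ≤ ∏ b : β, R ^ d (some b) := by
          refine Finset.prod_le_prod (fun _ _ => norm_nonneg _) (fun b _ => ?_)
          rw [norm_pow]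
          exact pow_le_pow_left₀ (norm_nonneg _) (hs b) _
      _ = R ^ (∑ b, d (some b)) := by rw [Finset.prod_pow_eq_pow_sum]
      _ ≤ R ^ k := by
          refine pow_le_pow_right₀ hR ?_
          rw [Fintype.sum_option] at hd
          omega

end N1Aux

open N1Aux in
theorem pN1 : S_N1 := by
  intro ι _ _ r c Y
  set n := Fintype.card ι with hn
  set v := Fintype.card (Option (BU ι r)) with hv
  refine ⟨v + c + n * Y + 2, ?_⟩
  intro E k y f u hk hE hco hy hf hu h0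
  set z : ℂ := aeval y f with hz
  set s : BU ι r → ℂ := Sum.elim u (psi u y) with hs
  set R : ℝ := (((1 + n * Y) * (2 * k + 1) : ℕ) : ℝ) with hR
  have hR1 : 1 ≤ R := by
    rw [hR]
    exact_mod_cast Nat.one_le_iff_ne_zero.mpr (by positivity)
  have hsR : ∀ b, ‖s b‖ ≤ R := by
    rintro (p | i)
    · simp only [hs, Sum.elim_inl]
      refine (hu p).trans ?_
      rw [hR]
      push_cast
      nlinarith [mul_nonneg (mul_nonneg (Nat.cast_nonneg (α := ℝ) n) (Nat.cast_nonneg (α := ℝ) Y))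
        (by positivity : (0 : ℝ) ≤ 2 * k + 1)]
    · simp only [hs, Sum.elim_inr, psi]
      calc ‖∑ j, u (i, j) * y j‖ ≤ ∑ j, ‖u (i, j) * y j‖ := norm_sum_le _ _
        _ ≤ ∑ _j : ι, ((2 * k + 1 : ℝ) * Y) := by
            refine Finset.sum_le_sum (fun j _ => ?_)
            rw [norm_mul]
            exact mul_le_mul (hu _) (hy j) (norm_nonneg _) (by positivity)
        _ = n * ((2 * k + 1 : ℝ) * Y) := by
            rw [Finset.sum_const, Finset.card_univ, nsmul_eq_mul]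
        _ ≤ R := by
            rw [hR]
            push_cast
            nlinarith [(by positivity : (0 : ℝ) ≤ 2 * k + 1)]
  have hterm : ∀ d ∈ E.support, ‖((E.coeff d : ℤ) : ℂ) * ∏ i, ev 0 s i ^ d i -
      ((E.coeff d : ℤ) : ℂ) * ∏ i, ev z s i ^ d i‖ ≤ 2 ^ (c * k ^ 2) * (‖z‖ * R ^ k) := by
    intro d hd
    rw [← mul_sub, norm_mul]
    refine mul_le_mul ?_ ?_ (norm_nonneg _) (by positivity)
    · rw [Complex.norm_intCast]
      exact_mod_cast hco d
    · refine diff_le z s R hR1 k hf hsR d ?_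
      have h2 := MvPolynomial.le_totalDegree hd
      rw [Finsupp.sum_fintype _ _ (fun _ => rfl)] at h2
      omega
  have hmain : ‖aeval (ev 0 s) E‖ ≤ E.support.card * (2 ^ (c * k ^ 2) * (‖z‖ * R ^ k)) := by
    have h1 : aeval (ev 0 s) E = ∑ d ∈ E.support, (((E.coeff d : ℤ) : ℂ) * ∏ i, ev 0 s i ^ d i -
      ((E.coeff d : ℤ) : ℂ) * ∏ i, ev z s i ^ d i) := by
      rw [Finset.sum_sub_distrib, ← aeval_supp, ← aeval_supp, h0, sub_zero]
    rw [h1]
    refine (norm_sum_le _ _).trans ?_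
    refine (Finset.sum_le_sum hterm).trans ?_
    rw [Finset.sum_const, nsmul_eq_mul]
  have hcard : E.support.card ≤ 2 ^ (v * k ^ 2) := by
    refine (card_supp E k hE).trans ?_
    calc (k + 1) ^ v ≤ (2 ^ k) ^ v := Nat.pow_le_pow_left (Nat.lt_two_pow_self) _
      _ = 2 ^ (k * v) := by rw [pow_mul]
      _ ≤ 2 ^ (v * k ^ 2) := by
          refine Nat.pow_le_pow_right (by norm_num) ?_
          nlinarith [Nat.zero_le (v * k), Nat.mul_le_mul_left (v * k) hk]
  have hRk : R ^ k ≤ 2 ^ ((n * Y + 2) * k ^ 2) := by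
    have h1 : (1 + n * Y) * (2 * k + 1) ≤ 2 ^ (n * Y) * 2 ^ (2 * k) := by
      refine Nat.mul_le_mul ?_ ?_
      · have := Nat.lt_two_pow_self (n := n * Y)
        omega
      · exact Nat.lt_two_pow_self
    have h2 : ((1 + n * Y) * (2 * k + 1)) ^ k ≤ 2 ^ ((n * Y + 2) * k ^ 2) := by
      calc ((1 + n * Y) * (2 * k + 1)) ^ k ≤ (2 ^ (n * Y) * 2 ^ (2 * k)) ^ k := Nat.pow_le_pow_left h1 _
        _ = 2 ^ ((n * Y + 2 * k) * k) := by rw [← pow_add, ← pow_mul]
        _ ≤ 2 ^ ((n * Y + 2) * k ^ 2) := by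
            refine Nat.pow_le_pow_right (by norm_num) ?_
            nlinarith [Nat.mul_le_mul_left (n * Y * k) hk]
    rw [hR]
    exact_mod_cast h2
  refine hmain.trans ?_
  have e1 : (2 : ℝ) ^ ((v + c + n * Y + 2) * k ^ 2) = 2 ^ (v * k ^ 2) * 2 ^ (c * k ^ 2) * 2 ^ ((n * Y + 2) * k ^ 2) := by
    rw [← pow_add, ← pow_add]
    congr 1
    ring
  rw [e1]
  have hcard' : ((E.support.card : ℕ) : ℝ) ≤ 2 ^ (v * k ^ 2) := by exact_mod_cast hcard
  calc (E.support.card : ℝ) * (2 ^ (c * k ^ 2) * (‖z‖ * R ^ k))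
      ≤ 2 ^ (v * k ^ 2) * (2 ^ (c * k ^ 2) * (‖z‖ * 2 ^ ((n * Y + 2) * k ^ 2))) := by
        refine mul_le_mul hcard' ?_ (by positivity) (by positivity)
        refine mul_le_mul_of_nonneg_left ?_ (by positivity)
        exact mul_le_mul_of_nonneg_left hRk (norm_nonneg _)
    _ = ‖z‖ * (2 ^ (v * k ^ 2) * 2 ^ (c * k ^ 2) * 2 ^ ((n * Y + 2) * k ^ 2)) := by ring

end Pool.Agent.SMQ
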