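import Pool.Agent.Lib.MP_452a87_nt.SpecN

set_option autoImplicit false

namespace Pool.Agent.SMQ

open MvPolynomial

theorem pN3 (h1 : S_Usp) : S_N3 := by
  intro ι _ _ ρ δ a E u' t' ha hu hq Z hZ
  classical
  obtain ⟨u0, hu0, hsep⟩ := h1 ι ρ a u' ha hu ((Z ×ˢ Z).image (fun p => p.1 - p.2))
  obtain ⟨q, hdeg, hco, hev⟩ := hq (full u0 u')
  have hq0 : q ≠ 0 := by
    rintro rfl
    apply hu0
    rw [← hco, Polynomial.coeff_zero]
  have hinj : Set.InjOn (fun x : ι → ℂ => ∑ j, u0 j * x j) (Z : Set (ι → ℂ)) := by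
    intro x hx y hy hxy
    by_contra hne
    have hmem : x - y ∈ (Z ×ˢ Z).image (fun p : (ι → ℂ) × (ι → ℂ) => p.1 - p.2) :=
      Finset.mem_image.mpr ⟨(x, y), Finset.mem_product.mpr ⟨hx, hy⟩, rfl⟩
    apply hsep _ hmem (sub_ne_zero.mpr hne)
    simp only [Pi.sub_apply, mul_sub, Finset.sum_sub_distrib]
    simp only at hxy
    rw [hxy, sub_self]
  have hsub : Z.image (fun x : ι → ℂ => ∑ j, u0 j * x j) ⊆ q.roots.toFinset := by
    intro z hz
    obtain ⟨x, hx, rfl⟩ := Finset.mem_image.mp hz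
    rw [Multiset.mem_toFinset, Polynomial.mem_roots hq0, Polynomial.IsRoot.def, hev]
    obtain ⟨hx1, hx2⟩ := hZ x hx
    have := hx2 (full u0 u')
    have hpsi : psi (full u0 u') x = (Fin.cons (∑ j, u0 j * x j) t' : Fin (ρ + 1) → ℂ) := by
      funext i
      refine Fin.cases ?_ (fun i => ?_) i
      · rfl
      · rw [Fin.cons_succ, ← hx1]
        rfl
    rw [hpsi] at this
    exact this
  calc Z.card = (Z.image (fun x : ι → ℂ => ∑ j, u0 j * x j)).card := (Finset.card_image_of_injOn hinj).symm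
    _ ≤ q.roots.toFinset.card := Finset.card_le_card hsub
    _ ≤ Multiset.card q.roots := Multiset.toFinset_card_le _
    _ ≤ q.natDegree := Polynomial.card_roots' q
    _ ≤ δ := hdeg

end Pool.Agent.SMQ
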