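import Pool.Agent.Lib.MP_452a87_nt.SpecN

set_option autoImplicit false

namespace Pool.Agent.SMQ

open MvPolynomial

namespace N4Aux

lemma multi_min (s : Multiset ℂ) (z : ℂ) (r : ℝ) (hr : 0 ≤ r) (h : ∀ ζ ∈ s, r ≤ ‖z - ζ‖) :
    r ^ Multiset.card s ≤ ‖(s.map (fun ζ => z - ζ)).prod‖ := by
  induction s using Multiset.induction_on with
  | empty => simp
  | cons a s ih =>
    rw [Multiset.card_cons, Multiset.map_cons, Multiset.prod_cons, norm_mul, pow_succ, mul_comm]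
    exact mul_le_mul (h a (Multiset.mem_cons_self a s)) (ih (fun ζ hζ => h ζ (Multiset.mem_cons_of_mem hζ)))
      (pow_nonneg hr _) (norm_nonneg _)

/-- A root close to `z`. -/
lemma exists_root (q : Polynomial ℂ) (δ : ℕ) (z : ℂ) (η : ℝ) (hη : 4 * η ≤ 1) (hdeg : q.natDegree ≤ δ)
    (hco : 1 / 2 ≤ ‖q.coeff δ‖) (hev : ‖q.eval z‖ ≤ η) :
    ∃ ζ : ℂ, q.eval ζ = 0 ∧ 1 ≤ δ ∧ ‖z - ζ‖ ^ δ ≤ 2 * η := by
  have hc0 : q.coeff δ ≠ 0 := by
    intro h
    rw [h, norm_zero] at hco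
    linarith
  have hq0 : q ≠ 0 := by
    rintro rfl
    exact hc0 (Polynomial.coeff_zero _)
  have hnd : q.natDegree = δ := le_antisymm hdeg (Polynomial.le_natDegree_of_ne_zero hc0)
  have hlc : q.leadingCoeff = q.coeff δ := by rw [Polynomial.leadingCoeff, hnd]
  have hsp : q.Splits := IsAlgClosed.splits q
  have hcard : Multiset.card q.roots = δ := by
    rw [← hnd]
    exact hsp.natDegree_eq_card_roots.symm
  have hprod : q.eval z = q.leadingCoeff * (q.roots.map (fun ζ => z - ζ)).prod := by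
    conv_lhs => rw [hsp.eq_prod_roots]
    rw [Polynomial.eval_mul, Polynomial.eval_C, Polynomial.eval_multiset_prod, Multiset.map_map]
    congr 2
    apply Multiset.map_congr rfl
    intro x _
    simp
  have hP : ‖(q.roots.map (fun ζ => z - ζ)).prod‖ ≤ 2 * η := by
    rw [hprod, norm_mul, hlc] at hev
    nlinarith [norm_nonneg (q.roots.map (fun ζ => z - ζ)).prod]
  rcases Nat.eq_zero_or_pos δ with h0 | h0
  · exfalso
    have : q.roots = 0 := by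
      rw [← Multiset.card_eq_zero, hcard, h0]
    rw [this] at hP
    simp at hP
    linarith
  · have hne : q.roots.toFinset.Nonempty := by
      rw [Finset.nonempty_iff_ne_empty]
      intro h
      rw [Multiset.toFinset_eq_empty] at h
      rw [h] at hcard
      simp at hcard
      omega
    obtain ⟨ζ, hζ, hmin⟩ := Finset.exists_min_image q.roots.toFinset (fun ζ => ‖z - ζ‖) hne
    rw [Multiset.mem_toFinset] at hζ
    refine ⟨ζ, ?_, h0, ?_⟩
    · exact (Polynomial.mem_roots hq0).mp hζ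
    · have := multi_min q.roots z ‖z - ζ‖ (norm_nonneg _)
        (fun x hx => hmin x (Multiset.mem_toFinset.mpr hx))
      rw [hcard] at this
      exact this.trans hP

end N4Aux

open N4Aux in
theorem pN4 (hN0 : S_N0) (hN1 : S_N1) (hUch : S_Uch) (hN3 : S_N3) (hAlg : S_Alg) (hP7 : S_P7) : S_N4 := by
  intro ι _ _ ρ c Y
  obtain ⟨C1, hC1⟩ := hN1 ι (ρ + 1) c Y
  refine ⟨C1 + 2, ?_⟩
  intro ξ y f E k hTr hf hSpc hY hIrr hE hk hdeg hco hsmall
  classical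
  have : Nonempty ι := ⟨hTr.choose 0⟩
  obtain ⟨δ, a, ha, hδ, hadeg, hq⟩ := hAlg ι ρ ξ f E hTr hf hIrr hE
  obtain ⟨u', hgen', hb', hZ⟩ := hUch ι ρ k ξ a hk ha (hadeg.trans hdeg)
  have halg' : AlgebraicIndependent ℚ u' := by
    have h1 : AlgebraicIndependent (IntermediateField.adjoin ℚ (Set.range ξ)) u' := hgen'
    exact h1.restrictScalars (algebraMap ℚ (IntermediateField.adjoin ℚ (Set.range ξ))).injective
  set t' : Fin ρ → ℂ := psi u' y with ht'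
  set ZZ : Set (ι → ℂ) := {x | Spc ξ x ∧ aeval x f = 0 ∧ psi u' x = t'} with hZZ
  have hcardZ : ∀ Z : Finset (ι → ℂ), (∀ x ∈ Z, x ∈ ZZ) → Z.card ≤ δ := by
    intro Z hZsub
    refine hN3 ι ρ δ a E u' t' ha halg' ?_ Z ?_
    · intro u
      exact hq u t'
    · intro x hx
      obtain ⟨hx1, hx2, hx3⟩ := hZsub x hx
      refine ⟨hx3, ?_⟩
      intro u
      have := hN0 ι (ρ + 1) ξ x f E hx1 hE u
      rw [hx2] at this
      exact this
  have hfin : ZZ.Finite := by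
    by_contra hinf
    obtain ⟨Z, hZ1, hZ2⟩ := Set.Infinite.exists_subset_card_eq hinf (δ + 1)
    have := hcardZ Z (fun x hx => hZ1 hx)
    omega
  obtain ⟨u0, hu0b, hgen, haval, hsep⟩ := hZ (hfin.toFinset.image (fun x => y - x)) (by
    refine Finset.card_image_le.trans ?_
    refine (hcardZ _ (fun x hx => hfin.mem_toFinset.mp hx)).trans (hδ.trans hdeg))
  set u : Fin (ρ + 1) × ι → ℂ := full u0 u' with hu
  set z : ℂ := ∑ j, u0 j * y j with hz
  have hpsi : psi u y = (Fin.cons z t' : Fin (ρ + 1) → ℂ) := by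
    funext i
    refine Fin.cases ?_ (fun i => ?_) i
    · rfl
    · rfl
  have hub : ∀ p, ‖u p‖ ≤ 2 * k + 1 := by
    rintro ⟨i, j⟩
    refine Fin.cases ?_ (fun i => ?_) i
    · exact hu0b j
    · exact hb' (i, j)
  have hpow1 : (1 : ℝ) ≤ 2 ^ ((C1 + 2) * k ^ 2) := one_le_pow₀ (by norm_num)
  have hf1 : ‖aeval y f‖ ≤ 1 := by
    nlinarith [norm_nonneg (aeval y f)]
  set η : ℝ := ‖aeval y f‖ * 2 ^ (C1 * k ^ 2) with hη
  have hη0 : 0 ≤ η := by rw [hη]; positivity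
  have h4 : 4 * η ≤ ‖aeval y f‖ * 2 ^ ((C1 + 2) * k ^ 2) := by
    have e1 : (2 : ℝ) ^ ((C1 + 2) * k ^ 2) = 2 ^ (C1 * k ^ 2) * 2 ^ (2 * k ^ 2) := by
      rw [← pow_add]
      congr 1
      ring
    have e2 : (4 : ℝ) ≤ 2 ^ (2 * k ^ 2) := by
      calc (4 : ℝ) = 2 ^ 2 := by norm_num
        _ ≤ 2 ^ (2 * k ^ 2) := pow_le_pow_right₀ (by norm_num) (by nlinarith)
    rw [e1]
    calc 4 * η = η * 4 := mul_comm _ _
      _ ≤ η * 2 ^ (2 * k ^ 2) := mul_le_mul_of_nonneg_left e2 hη0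
      _ = ‖aeval y f‖ * (2 ^ (C1 * k ^ 2) * 2 ^ (2 * k ^ 2)) := by rw [hη]; ring
  have h41 : 4 * η ≤ 1 := h4.trans hsmall
  have hE0 : ‖aeval (ev 0 (Sum.elim u (psi u y))) E‖ ≤ η :=
    hC1 E k y f u hk hdeg hco hY hf1 hub (hN0 ι (ρ + 1) ξ y f E hSpc hE u)
  obtain ⟨q, hqdeg, hqco, hqev⟩ := hq u t'
  obtain ⟨ζ, hζ0, hδ1, hζ⟩ := exists_root q δ z η h41 hqdeg (by rw [hqco]; exact haval) (by
    rw [hqev, ← hpsi]
    exact hE0)
  rw [hqev] at hζ0
  obtain ⟨ξ', ξ'', hs1, hfξ', hTr', hs2, hpsi''⟩ := hP7 ι ρ ξ f E hTr hf hIrr hE u (Fin.cons ζ t') hgen hζ0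
  refine ⟨ξ', ξ'', hs1, hfξ', hTr', hs2, ?_⟩
  have hmem : ξ'' ∈ ZZ := by
    refine ⟨hs1.trans hs2, hs2 f hfξ', ?_⟩
    funext i
    have := congrFun hpsi'' i.succ
    rw [Fin.cons_succ] at this
    exact this
  have hζ2 : ∑ j, u0 j * ξ'' j = ζ := congrFun hpsi'' 0
  intro j
  have hj := hsep (y - ξ'') (Finset.mem_image.mpr ⟨ξ'', hfin.mem_toFinset.mpr hmem, rfl⟩) j
  have hsum : ∑ i, u0 i * (y - ξ'') i = z - ζ := by
    rw [← hζ2, hz, ← Finset.sum_sub_distrib]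
    exact Finset.sum_congr rfl (fun i _ => by rw [Pi.sub_apply, mul_sub])
  rw [hsum] at hj
  have hj' : ‖ξ'' j - y j‖ / 4 ≤ ‖z - ζ‖ := by
    rw [norm_sub_rev]
    have : ‖(y - ξ'') j‖ = ‖y j - ξ'' j‖ := rfl
    linarith
  have hb1 : ‖z - ζ‖ ≤ 1 := by
    by_contra hcon
    push Not at hcon
    have : 1 < ‖z - ζ‖ ^ δ := one_lt_pow₀ hcon (by omega)
    linarith
  calc (‖ξ'' j - y j‖ / 4) ^ k ≤ ‖z - ζ‖ ^ k := pow_le_pow_left₀ (by positivity) hj' k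
    _ ≤ ‖z - ζ‖ ^ δ := pow_le_pow_of_le_one (norm_nonneg _) hb1 (hδ.trans hdeg)
    _ ≤ 2 * η := hζ
    _ ≤ 4 * η := by linarith
    _ ≤ _ := h4

end Pool.Agent.SMQ
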