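import Pool.Agent.Lib.MP_452a87_nt.SpecN

set_option autoImplicit false

namespace Pool.Agent.SMQ

theorem pNumI : S_NumI := by
  intro t D A hA hD
  refine ⟨16 * A ^ (2 * t + 4) + 2, ?_, by omega, ?_⟩
  · calc A = A ^ 1 := (pow_one A).symm
      _ ≤ A ^ (2 * t + 4) := Nat.pow_le_pow_right hA (by omega)
      _ ≤ 16 * A ^ (2 * t + 4) + 2 := by omega
  intro i hi
  set N : ℕ := 16 * A ^ (2 * t + 4) + 2 with hN
  obtain ⟨j, rfl⟩ := Nat.exists_eq_add_of_le hi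
  obtain ⟨D', hD'⟩ := Nat.exists_eq_add_of_le hD
  have s1 : 2 * (i + j) + 5 - i = i + 2 * j + 5 := by omega
  have s2 : i + j + 2 - i = j + 2 := by omega
  have s3 : i + j + 1 - i = j + 1 := by omega
  have s4 : 2 * (i + j) + 5 - (i + 1) = i + 2 * j + 4 := by omega
  have s5 : D - 2 * (i + j) - 2 = 4 * (i + j) ^ 2 + 14 * (i + j) + 14 + D' := by
    rw [hD']
    have : 4 * (i + j + 2) ^ 2 + D' = 4 * (i + j) ^ 2 + 14 * (i + j) + 14 + D' + 2 * (i + j) + 2 := by ring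
    omega
  rw [s1, s2, s3, s4, s5]
  set e : ℕ := (i + 1) * (i + 2 * j + 4) with he
  have hN1 : 1 ≤ N := by omega
  have hAi : 16 * A ^ (2 * i + 4) ≤ N := by
    have : A ^ (2 * i + 4) ≤ A ^ (2 * (i + j) + 4) := Nat.pow_le_pow_right hA (by omega)
    omega
  have hAi2 : 16 * A ^ (i + 2) ≤ N := by
    have : A ^ (i + 2) ≤ A ^ (2 * (i + j) + 4) := Nat.pow_le_pow_right hA (by omega)
    omega
  have hc : A * (A ^ (i + 1) * N ^ (i * (i + 2 * j + 5))) * (N ^ (j + 2)) ^ 2 = A ^ (i + 2) * N ^ e := by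
    have : e = i * (i + 2 * j + 5) + (j + 2) * 2 := by rw [he]; ring
    rw [this, pow_add N (i * (i + 2 * j + 5)) ((j + 2) * 2), pow_mul N (j + 2) 2, pow_succ A (i + 1)]
    generalize N ^ (j + 2) = x
    generalize N ^ (i * (i + 2 * j + 5)) = y
    ring
  rw [hc]
  have hK2 : (A ^ (i + 2) * N ^ e) ^ 2 = A ^ (2 * i + 4) * N ^ (2 * e) := by
    rw [mul_pow, ← pow_mul, ← pow_mul]
    congr 2 <;> ring
  have hE : (N ^ (j + 2)) ^ (4 * (i + j) ^ 2 + 14 * (i + j) + 14 + D') =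
      N ^ ((j + 2) * (4 * (i + j) ^ 2 + 14 * (i + j) + 14 + D')) := by rw [← pow_mul]
  rw [hE, hK2]
  set F : ℕ := (j + 2) * (4 * (i + j) ^ 2 + 14 * (i + j) + 14 + D') with hF
  have x1 : 2 * e + 1 ≤ F := by
    rw [he, hF]
    nlinarith [Nat.zero_le (i * j), Nat.zero_le (j * (4 * (i + j) ^ 2 + 14 * (i + j) + 14 + D')), Nat.zero_le D',
      Nat.zero_le (i ^ 2), Nat.zero_le (j ^ 2)]
  have x2 : e + (j + 1) * (D + 1) + 1 ≤ F := by
    rw [he, hF, hD']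
    nlinarith [Nat.zero_le (i * j), Nat.zero_le D', Nat.zero_le (i ^ 2), Nat.zero_le (j ^ 2)]
  have h1 : 16 * (A ^ (2 * i + 4) * N ^ (2 * e)) ≤ N ^ (2 * e + 1) := by
    rw [pow_succ N (2 * e)]
    calc 16 * (A ^ (2 * i + 4) * N ^ (2 * e)) = N ^ (2 * e) * (16 * A ^ (2 * i + 4)) := by ring
      _ ≤ N ^ (2 * e) * N := Nat.mul_le_mul_left _ hAi
  have h1' : 1 ≤ A ^ (2 * i + 4) * N ^ (2 * e) := Nat.one_le_iff_ne_zero.mpr (by positivity)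
  have h2 : N ^ (2 * e + 1) ≤ N ^ F := Nat.pow_le_pow_right hN1 x1
  refine ⟨by omega, ?_, rfl⟩
  intro _
  have h3 : 16 * (A ^ (i + 2) * N ^ e * (N ^ (j + 1)) ^ (D + 1)) ≤ N ^ (e + (j + 1) * (D + 1) + 1) := by
    rw [← pow_mul, pow_succ N (e + (j + 1) * (D + 1)), pow_add N e]
    calc 16 * (A ^ (i + 2) * N ^ e * N ^ ((j + 1) * (D + 1))) = N ^ e * N ^ ((j + 1) * (D + 1)) * (16 * A ^ (i + 2)) := by ring
      _ ≤ N ^ e * N ^ ((j + 1) * (D + 1)) * N := Nat.mul_le_mul_left _ hAi2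
  have h4 : N ^ (e + (j + 1) * (D + 1) + 1) ≤ N ^ F := Nat.pow_le_pow_right hN1 x2
  have h5 : 4 * (A ^ (i + 2) * N ^ e) * (N ^ (j + 1)) ^ (D + 1) = 4 * (A ^ (i + 2) * N ^ e * (N ^ (j + 1)) ^ (D + 1)) := by ring
  rw [h5]
  omega

end Pool.Agent.SMQ
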