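import Pool.Agent.Lib.MP_452a87_nt.SpecN

set_option autoImplicit false

namespace Pool.Agent.SMQ

open MvPolynomial

namespace StepAux

lemma pp_mono {ι Ω : Type} [Field Ω] (x : ι → Ω) (r s s' : ℕ) (h : s ≤ s') (hP : PP x r s) : PP x r s' := by
  intro a B ha hB
  exact (hP a B ha hB).trans (Nat.pow_le_pow_right (by norm_num) (Nat.mul_le_mul_right _ h))

end StepAux

open StepAux in
theorem pStep (hN4 : S_N4) (hE : S_E) (hK3 : S_K3) (hL1s : S_L1s) : S_Step := by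
  intro ι _ _ ρ Y
  obtain ⟨CE, hCE1, hCE⟩ := hE ι (ρ + 1)
  obtain ⟨C4, hC4⟩ := hN4 ι ρ CE Y
  set n := Fintype.card ι with hn
  refine ⟨C4 * CE ^ 2 + 2 ^ (ρ + 1) * (n + 6) + CE, by omega, ?_⟩
  intro ξ y s d f hs hd hTr hPP hSpc hY hSz hf hsmall
  set C := C4 * CE ^ 2 + 2 ^ (ρ + 1) * (n + 6) + CE with hC
  obtain ⟨E, hIrr, hEdeg, hEco, hEv⟩ := hCE ξ s d f hs hd hPP hSz
  set k := CE * s * d with hk
  have hk1 : 1 ≤ k := by
    rw [hk]
    exact Nat.one_le_iff_ne_zero.mpr (by positivity)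
  have hk2 : k ^ 2 = CE ^ 2 * (s * d) ^ 2 := by rw [hk]; ring
  have hco : ∀ m, |E.coeff m| ≤ 2 ^ (CE * k ^ 2) := by
    intro m
    refine (hEco m).trans ?_
    refine pow_le_pow_right₀ (by norm_num) ?_
    rw [hk2]
    refine Nat.mul_le_mul_left _ ?_
    exact Nat.le_mul_of_pos_left _ (by positivity)
  have hexp : C4 * k ^ 2 ≤ C * (s * d) ^ 2 := by
    rw [hk2, ← mul_assoc]
    refine Nat.mul_le_mul_right _ ?_
    rw [hC]
    omega
  have hle : ‖aeval y f‖ * 2 ^ (C4 * k ^ 2) ≤ ‖aeval y f‖ * 2 ^ (C * (s * d) ^ 2) :=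
    mul_le_mul_of_nonneg_left (pow_le_pow_right₀ (by norm_num) hexp) (norm_nonneg _)
  obtain ⟨ξ', y', hs1, hf', hTr', hs2, hb⟩ := hC4 ξ y f E k hTr hf hSpc hY hIrr hEv hk1 hEdeg hco (hle.trans hsmall)
  refine ⟨ξ', y', hTr', ?_, hs2, ?_⟩
  · have h1 := hK3 ι ℂ ℂ ξ ξ' f d ((n + 1) * d) ρ s hs1 hf hf' hSz.1 (hL1s ι f d hSz) hd hPP
    refine pp_mono ξ' ρ _ _ ?_ h1
    calc 2 ^ (ρ + 1) * s * ((n + 1) * d + 2 + 3 * d) ≤ 2 ^ (ρ + 1) * s * ((n + 6) * d) := by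
          refine Nat.mul_le_mul_left _ ?_
          nlinarith
      _ = 2 ^ (ρ + 1) * (n + 6) * (s * d) := by ring
      _ ≤ C * (s * d) := Nat.mul_le_mul_right _ (by rw [hC]; omega)
      _ = C * s * d := by ring
  · intro j
    have hb1 : (‖y' j - y j‖ / 4) ^ k ≤ 1 := (hb j).trans (hle.trans hsmall)
    have hb2 : ‖y' j - y j‖ / 4 ≤ 1 := by
      by_contra hcon
      push Not at hcon
      have := one_lt_pow₀ hcon (n := k) (by omega)
      linarith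
    calc (‖y' j - y j‖ / 4) ^ (C * s * d) ≤ (‖y' j - y j‖ / 4) ^ k := by
          refine pow_le_pow_of_le_one (by positivity) hb2 ?_
          rw [hk]
          exact Nat.mul_le_mul_right _ (Nat.mul_le_mul_right _ (by rw [hC]; omega))
      _ ≤ _ := (hb j).trans hle

end Pool.Agent.SMQ
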