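import Pool.Agent.Lib.MP_452a87_nt.SpecN

/-!
# One stage of the iteration
-/

set_option autoImplicit false

namespace Pool.Agent.SMQ

open MvPolynomial

namespace StgAux

lemma two_le_exp : (2 : ℝ) ≤ Real.exp 1 := by
  have := Real.add_one_le_exp (1 : ℝ)
  linarith

lemma two_pow_le (n : ℕ) : (2 : ℝ) ^ n ≤ Real.exp n := by
  calc (2 : ℝ) ^ n ≤ Real.exp 1 ^ n := pow_le_pow_left₀ (by norm_num) two_le_exp _
    _ = Real.exp n := by rw [← Real.exp_nat_mul, mul_one]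

lemma PP_mono {ι Ω : Type} [Field Ω] (x : ι → Ω) (r s s' : ℕ) (h : s ≤ s') (hP : PP x r s) : PP x r s' := by
  intro a B ha hB
  refine (hP a B ha hB).trans (Nat.pow_le_pow_right (by norm_num) ?_)
  exact Nat.mul_le_mul_right _ h

lemma small_err (D e Y d K N : ℕ) (he : e ≤ D) (hD : 2 ≤ D) (hd : (D + 2 + Y) * d ≤ K * N ^ 2) (hN : K + 1 ≤ N) :
    (2 : ℝ) ^ ((D + 1) * d) * ((d : ℝ) * (Y : ℝ) ^ d * Real.exp (-(N : ℝ) ^ (D + 1))) ≤ Real.exp (-(N : ℝ) ^ e) := by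
  have hN1 : 1 ≤ N := by omega
  have hN1' : (1 : ℝ) ≤ N := by exact_mod_cast hN1
  have h1 : (d : ℝ) ≤ 2 ^ d := by exact_mod_cast (Nat.lt_two_pow_self (n := d)).le
  have h2 : (Y : ℝ) ^ d ≤ 2 ^ (Y * d) := by
    rw [pow_mul]
    exact pow_le_pow_left₀ (by positivity) (by exact_mod_cast (Nat.lt_two_pow_self (n := Y)).le) _
  have h3 : (2 : ℝ) ^ ((D + 1) * d) * ((d : ℝ) * (Y : ℝ) ^ d) ≤ Real.exp ((K : ℝ) * N ^ 2) := by
    calc (2 : ℝ) ^ ((D + 1) * d) * ((d : ℝ) * (Y : ℝ) ^ d)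
        ≤ (2 : ℝ) ^ ((D + 1) * d) * ((2 : ℝ) ^ d * 2 ^ (Y * d)) := by
          apply mul_le_mul_of_nonneg_left _ (by positivity)
          exact mul_le_mul h1 h2 (by positivity) (by positivity)
      _ = 2 ^ ((D + 2 + Y) * d) := by
          rw [← pow_add, ← pow_add]; congr 1; ring
      _ ≤ 2 ^ (K * N ^ 2) := pow_le_pow_right₀ (by norm_num) hd
      _ ≤ Real.exp ((K * N ^ 2 : ℕ) : ℝ) := two_pow_le _
      _ = Real.exp ((K : ℝ) * N ^ 2) := by push_cast; rfl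
  have h4 : (N : ℝ) ^ e + K * N ^ 2 ≤ (N : ℝ) ^ (D + 1) := by
    have e1 : (N : ℝ) ^ e ≤ (N : ℝ) ^ D := pow_le_pow_right₀ hN1' he
    have e2 : (N : ℝ) ^ 2 ≤ (N : ℝ) ^ D := pow_le_pow_right₀ hN1' hD
    have e3 : ((K : ℝ) + 1) ≤ N := by exact_mod_cast hN
    have e4 : (0 : ℝ) ≤ (N : ℝ) ^ D := by positivity
    have e5 : (0 : ℝ) ≤ (K : ℝ) := by positivity
    calc (N : ℝ) ^ e + K * N ^ 2 ≤ (N : ℝ) ^ D + K * (N : ℝ) ^ D := by
          have := mul_le_mul_of_nonneg_left e2 e5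
          linarith
      _ = (K + 1) * (N : ℝ) ^ D := by ring
      _ ≤ N * (N : ℝ) ^ D := mul_le_mul_of_nonneg_right e3 e4
      _ = (N : ℝ) ^ (D + 1) := by ring
  calc (2 : ℝ) ^ ((D + 1) * d) * ((d : ℝ) * (Y : ℝ) ^ d * Real.exp (-(N : ℝ) ^ (D + 1)))
      = ((2 : ℝ) ^ ((D + 1) * d) * ((d : ℝ) * (Y : ℝ) ^ d)) * Real.exp (-(N : ℝ) ^ (D + 1)) := by ring
    _ ≤ Real.exp ((K : ℝ) * N ^ 2) * Real.exp (-(N : ℝ) ^ (D + 1)) :=
        mul_le_mul_of_nonneg_right h3 (Real.exp_pos _).le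
    _ = Real.exp ((K : ℝ) * N ^ 2 + -(N : ℝ) ^ (D + 1)) := by rw [Real.exp_add]
    _ ≤ Real.exp (-(N : ℝ) ^ e) := by
        apply Real.exp_le_exp.mpr
        linarith

/-- `b ^ K' ≤ r` from `b ^ K ≤ r ≤ 1`, `K ≤ K'`, `1 ≤ K`. -/
lemma pow_le_of_le {b r : ℝ} {K K' : ℕ} (hb : 0 ≤ b) (hK : 1 ≤ K) (hKK : K ≤ K') (h : b ^ K ≤ r) (hr : r ≤ 1) :
    b ^ K' ≤ r := by
  have hb1 : b ≤ 1 := by
    by_contra hc
    have hc' : 1 < b := not_le.mp hc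
    have : 1 < b ^ K := one_lt_pow₀ hc' (by omega)
    linarith
  exact (pow_le_pow_of_le_one hb hb1 hKK).trans h

/-- `2 exp(-M) 2^k ≤ 1` when `k + 2 ≤ M`. -/
lemma two_exp_le_one (k : ℕ) (M : ℝ) (h : (k : ℝ) + 2 ≤ M) : 2 * Real.exp (-M) * 2 ^ k ≤ 1 := by
  have h1 := two_pow_le k
  have h2 := two_le_exp
  calc 2 * Real.exp (-M) * 2 ^ k ≤ Real.exp 1 * Real.exp (-M) * Real.exp k := by
        apply mul_le_mul _ h1 (by positivity) (by positivity)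
        exact mul_le_mul_of_nonneg_right h2 (Real.exp_pos _).le
    _ = Real.exp (1 + -M + k) := by rw [Real.exp_add, Real.exp_add]
    _ ≤ Real.exp 0 := by
        apply Real.exp_le_exp.mpr
        linarith
    _ = 1 := Real.exp_zero

end StgAux

open StgAux

theorem pStg (hStep : S_Step) (hLio : S_Lio) (hX1 : S_X1) (hX2 : S_X2) (hFsz : S_Fsz) (hLip : S_Lip)
    (hL1s : S_L1s) (hK4 : S_K4) : S_Stg := by
  classical
  intro m t a L hInd hL hTr hbig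
  set D : ℕ := 2 ^ m with hD
  have hm4 : 4 ≤ m := by
    by_contra h
    have h1 : m ≤ 3 := by omega
    have h2 : D ≤ 2 ^ 3 := Nat.pow_le_pow_right (by norm_num) h1
    norm_num at h2
    have h3 : 4 * (0 + 2) ^ 2 ≤ 4 * (t + 2) ^ 2 := by gcongr; omega
    omega
  have h2t : 2 * t + 5 ≤ D := by nlinarith
  obtain ⟨c, hc1, hPPc⟩ := hK4 (Finset (Fin m)) ℂ (th a L) t hTr
  -- bound for the coordinates
  obtain ⟨Y, hY⟩ : ∃ Y : ℕ, ∀ U, ‖th a L U‖ + 1 ≤ (Y : ℝ) := by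
    refine ⟨⌈∑ U, ‖th a L U‖ + 1⌉₊, fun U => ?_⟩
    refine le_trans ?_ (Nat.le_ceil _)
    have := Finset.single_le_sum (f := fun U => ‖th a L U‖) (fun _ _ => norm_nonneg _) (Finset.mem_univ U)
    linarith
  have hY1 : (1 : ℝ) ≤ Y := by
    have := hY ∅
    have := norm_nonneg (th a L ∅)
    linarith
  obtain ⟨CF, hCF1, hFs⟩ := hFsz m a
  obtain ⟨CL, hCL1, hLi⟩ := hLio (Finset (Fin m))
  have hStep' : ∀ ρ : ℕ, ∃ C : ℕ, 1 ≤ C ∧ ∀ (ξ y : Finset (Fin m) → ℂ) (s d : ℕ) (f : MvPolynomial (Finset (Fin m)) ℤ),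
      1 ≤ s → 1 ≤ d →
      Tr ξ (ρ + 1) → PP ξ (ρ + 1) s → Spc ξ y → (∀ j, ‖y j‖ ≤ Y) → Sz f d → aeval ξ f ≠ 0 →
      ‖aeval y f‖ * 2 ^ (C * (s * d) ^ 2) ≤ 1 →
      ∃ ξ' y' : Finset (Fin m) → ℂ, Tr ξ' ρ ∧ PP ξ' ρ (C * s * d) ∧ Spc ξ' y' ∧
        ∀ j, (‖y' j - y j‖ / 4) ^ (C * s * d) ≤ ‖aeval y f‖ * 2 ^ (C * (s * d) ^ 2) :=
    fun ρ => hStep (Finset (Fin m)) ρ Y
  choose Cs hCs1 hCs using hStep'
  obtain ⟨N1, hN1⟩ := hX1 m a L t c hInd hL hPPc (by rw [← hD]; exact h2t)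
  obtain ⟨N2, hN2⟩ := hX2 m a L (by omega) hInd hL
  set Cm : ℕ := (Finset.range t).sup Cs with hCm
  set K : ℕ := (D + 2 + Y) * CF with hK
  set A : ℕ := c + Cm * CF + CL * CF + N1 + N2 + K + 2 with hA
  have hN0f : ∀ N : ℕ, A ≤ N → ∀ y : Finset (Fin m) → ℂ,
      (∀ U, ‖y U - th a L U‖ ≤ Real.exp (-(N : ℝ) ^ (D + 1))) →
      ∃ f : MvPolynomial (Finset (Fin m)) ℤ, Sz f (CF * N ^ 2) ∧ aeval y f ≠ 0 ∧ (∀ j, ‖y j‖ ≤ Y) ∧
        ‖aeval y f‖ ≤ 2 * Real.exp (-(N : ℝ) ^ (D - 2 * t - 2)) := by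
    intro N hN y hy
    have hNN : 1 ≤ N := by omega
    obtain ⟨p, hp0, hpb, hps⟩ := hN1 N (by omega)
    obtain ⟨s, hs, hsf⟩ := hN2 N (by omega) p hp0 y hy
    have hyY : ∀ j, ‖y j‖ ≤ Y := by
      intro j
      have h1 := hY j
      have h2 := hy j
      have h3 : Real.exp (-(N : ℝ) ^ (D + 1)) ≤ 1 := by
        rw [← Real.exp_zero]
        apply Real.exp_le_exp.mpr
        have : (0 : ℝ) ≤ (N : ℝ) ^ (D + 1) := by positivity
        linarith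
      have h4 : ‖y j‖ ≤ ‖y j - th a L j‖ + ‖th a L j‖ := by
        have := norm_add_le (y j - th a L j) (th a L j)
        simpa using this
      linarith
    have hthY : ∀ j, ‖th a L j‖ ≤ Y := by
      intro j
      have h1 := hY j
      linarith
    have hSz : Sz (fs a N p s) (CF * N ^ 2) := hFs N hNN p hpb s (fun V => (hs V).le)
    refine ⟨fs a N p s, hSz, hsf, hyY, ?_⟩
    have hl := hLip (Finset (Fin m)) (fs a N p s) (CF * N ^ 2) y (th a L) Y (Real.exp (-(N : ℝ) ^ (D + 1))) hY1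
      (Real.exp_pos _).le hSz.1 hyY hthY hy
    have hl1 := hL1s (Finset (Fin m)) (fs a N p s) (CF * N ^ 2) hSz
    have hcard : Fintype.card (Finset (Fin m)) = D := by
      rw [Fintype.card_finset, Fintype.card_fin]
    rw [hcard] at hl1
    have hl1' : (l1 (fs a N p s) : ℝ) ≤ 2 ^ ((D + 1) * (CF * N ^ 2)) := by exact_mod_cast hl1
    have herr : (l1 (fs a N p s) : ℝ) * (((CF * N ^ 2 : ℕ) : ℝ) * (Y : ℝ) ^ (CF * N ^ 2) * Real.exp (-(N : ℝ) ^ (D + 1))) ≤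
        Real.exp (-(N : ℝ) ^ (D - 2 * t - 2)) := by
      refine le_trans (mul_le_mul_of_nonneg_right hl1' (by positivity)) ?_
      refine small_err D (D - 2 * t - 2) Y (CF * N ^ 2) K N (by omega) (by omega) ?_ (by omega)
      rw [hK]
      exact le_of_eq (by ring)
    have h5 := hps s hs
    rw [← hD] at h5
    have h6 : ‖aeval y (fs a N p s)‖ ≤ ‖aeval y (fs a N p s) - aeval (th a L) (fs a N p s)‖ +
        ‖aeval (th a L) (fs a N p s)‖ := by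
      have := norm_add_le (aeval y (fs a N p s) - aeval (th a L) (fs a N p s)) (aeval (th a L) (fs a N p s))
      simpa using this
    linarith
  refine ⟨A, by omega, PP_mono _ _ _ _ (by omega) hPPc, ?_, ?_⟩
  · intro N hN ρ ξ y s hρ hs1 hTrξ hPPξ hSpc hy hsm
    obtain ⟨f, hSz, hf0, hyY, hfb⟩ := hN0f N hN y hy
    have hNN : 1 ≤ N := by omega
    set e : ℕ := D - 2 * t - 2 with he
    have hd1 : 1 ≤ CF * N ^ 2 := Nat.mul_pos hCF1 (Nat.pow_pos (by omega))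
    have hCρ : Cs ρ * CF ≤ A := by
      have h1 : Cs ρ ≤ Cm := Finset.le_sup (f := Cs) (Finset.mem_range.mpr hρ)
      have h2 : Cs ρ * CF ≤ Cm * CF := Nat.mul_le_mul_right _ h1
      omega
    have hK1 : Cs ρ * s * (CF * N ^ 2) ≤ A * s * N ^ 2 := by
      calc Cs ρ * s * (CF * N ^ 2) = (Cs ρ * CF) * s * N ^ 2 := by ring
        _ ≤ A * s * N ^ 2 := by gcongr
    have hK1' : 1 ≤ Cs ρ * s * (CF * N ^ 2) := Nat.mul_pos (Nat.mul_pos (hCs1 ρ) hs1) hd1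
    have hK2 : Cs ρ * (s * (CF * N ^ 2)) ^ 2 ≤ (A * s * N ^ 2) ^ 2 := by
      calc Cs ρ * (s * (CF * N ^ 2)) ^ 2 ≤ Cs ρ ^ 2 * (s * (CF * N ^ 2)) ^ 2 := by
            apply Nat.mul_le_mul_right
            nlinarith [hCs1 ρ]
        _ = (Cs ρ * s * (CF * N ^ 2)) ^ 2 := by ring
        _ ≤ (A * s * N ^ 2) ^ 2 := Nat.pow_le_pow_left hK1 2
    have hr1 : 2 * Real.exp (-(N : ℝ) ^ e) * 2 ^ ((A * s * N ^ 2) ^ 2) ≤ 1 := by
      apply two_exp_le_one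
      exact_mod_cast hsm
    have hle : ‖aeval y f‖ * 2 ^ (Cs ρ * (s * (CF * N ^ 2)) ^ 2) ≤
        2 * Real.exp (-(N : ℝ) ^ e) * 2 ^ ((A * s * N ^ 2) ^ 2) := by
      apply mul_le_mul hfb _ (by positivity) (by positivity)
      exact pow_le_pow_right₀ (by norm_num) hK2
    have hξf : aeval ξ f ≠ 0 := fun h => hf0 (hSpc f h)
    obtain ⟨ξ', y', hTr', hPP', hSpc', hb⟩ := hCs ρ ξ y s (CF * N ^ 2) f hs1 hd1 hTrξ hPPξ hSpc hyY hSz hξf
      (hle.trans hr1)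
    refine ⟨ξ', y', hTr', PP_mono _ _ _ _ hK1 hPP', hSpc', fun U => ?_⟩
    exact pow_le_of_le (by positivity) hK1' hK1 ((hb U).trans hle) hr1
  · intro N hN ξ y s hs1 hPPξ hSpc hy
    obtain ⟨f, hSz, hf0, hyY, hfb⟩ := hN0f N hN y hy
    have hNN : 1 ≤ N := by omega
    have hd1 : 1 ≤ CF * N ^ 2 := Nat.mul_pos hCF1 (Nat.pow_pos (by omega))
    have h1 := hLi ξ y s (CF * N ^ 2) f hs1 hd1 hPPξ hSpc hSz hf0
    refine h1.trans ?_
    apply mul_le_mul hfb _ (by positivity) (by positivity)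
    apply pow_le_pow_right₀ (by norm_num)
    have h2 : CL * CF ≤ A := by omega
    calc CL * s * (CF * N ^ 2) = (CL * CF) * s * N ^ 2 := by ring
      _ ≤ A * s * N ^ 2 := by gcongr

end Pool.Agent.SMQ
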