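import Pool.Agent.Lib.MP_452a87_nt.SpecN

/-!
# MP_452a87_nt, N/Uch: the choice of `u` (helper25, task 12396)
-/

set_option autoImplicit false

namespace Pool.Agent.SMQ

open MvPolynomial

namespace UchAux

open Finset

private theorem tdle {σ τ : Type} (a : MvPolynomial σ ℤ) (g : σ → MvPolynomial τ ℤ)
    (hg : ∀ i, (g i).totalDegree ≤ 1) : (aeval g a).totalDegree ≤ a.totalDegree := by
  classical
  rw [aeval_def, eval₂_eq]
  refine totalDegree_finsetSum_le fun d hd => ?_
  refine (totalDegree_mul _ _).trans ?_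
  have h1 : (algebraMap ℤ (MvPolynomial τ ℤ) (coeff d a)).totalDegree = 0 := totalDegree_C _
  rw [h1, zero_add]
  refine (totalDegree_finsetProd _ _).trans ?_
  calc ∑ i ∈ d.support, (g i ^ d i).totalDegree ≤ ∑ i ∈ d.support, d i :=
        sum_le_sum fun i _ => (totalDegree_pow _ _).trans (by nlinarith [hg i])
    _ ≤ a.totalDegree := le_totalDegree hd

private theorem sz {ι : Type} [Fintype ι] [DecidableEq ι] (p : MvPolynomial ι ℤ) (hp : p ≠ 0)
    (S : Finset ℤ) (hS : S.Nonempty) :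
    #{v ∈ Fintype.piFinset fun _ : ι => S | eval v p = 0} * #S ≤
      p.totalDegree * #S ^ Fintype.card ι := by
  classical
  let e := Fintype.equivFin ι
  have hq : rename e p ≠ 0 := fun h => hp (rename_injective e e.injective (by rw [h, map_zero]))
  have h1 := schwartz_zippel_totalDegree hq S
  have hS' : (0 : ℚ≥0) < #S := by exact_mod_cast hS.card_pos
  rw [div_le_div_iff₀ (by positivity) hS'] at h1
  have h2 : #{f ∈ Fintype.piFinset fun _ : Fin (Fintype.card ι) => S | eval f (rename e p) = 0} * #S ≤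
      (rename e p).totalDegree * #S ^ Fintype.card ι := by exact_mod_cast h1
  have h3 : #{v ∈ Fintype.piFinset fun _ : ι => S | eval v p = 0} ≤
      #{f ∈ Fintype.piFinset fun _ : Fin (Fintype.card ι) => S | eval f (rename e p) = 0} := by
    refine card_le_card_of_injOn (fun v => v ∘ e.symm) (fun v hv => ?_) (fun v _ v' _ h => ?_)
    · simp only [coe_filter, Set.mem_ofPred_eq, Fintype.mem_piFinset] at hv ⊢
      refine ⟨fun i => hv.1 _, ?_⟩
      rw [eval_rename]
      have : (v ∘ e.symm) ∘ e = v := by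
        funext i
        simp
      rw [this]
      exact hv.2
    · funext i
      have := congrFun h (e i)
      simpa using this
  calc _ ≤ #{f ∈ Fintype.piFinset fun _ : Fin (Fintype.card ι) => S | eval f (rename e p) = 0} * #S :=
        Nat.mul_le_mul_right _ h3
    _ ≤ _ := h2
    _ ≤ _ := Nat.mul_le_mul_right _ (totalDegree_rename_le _ _)

private theorem ae {κ : Type} (x : κ → ℤ) (a : MvPolynomial κ ℤ) : aeval x a = eval x a := by
  rw [← coe_aeval_eq_eval]
  rfl

private theorem cpf {ι : Type} [Fintype ι] [DecidableEq ι] (S : Finset ℤ) :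
    #(Fintype.piFinset fun _ : ι => S) = #S ^ Fintype.card ι := by
  rw [Fintype.card_piFinset, prod_const, card_univ]

private theorem badw {ι : Type} [Fintype ι] [DecidableEq ι] [Nonempty ι] (w : ι → ℂ)
    (S : Finset ℤ) :
    #{v ∈ Fintype.piFinset fun _ : ι => S | ‖∑ i, (v i : ℂ) * w i‖ < ‖w‖ / 2} * #S ≤
      #S ^ Fintype.card ι := by
  classical
  obtain ⟨j0, hj0⟩ := Finite.exists_max fun j => ‖w j‖
  have hw : ‖w‖ ≤ ‖w j0‖ := (pi_norm_le_iff_of_nonneg (norm_nonneg _)).2 hj0
  rw [← cpf, ← card_product]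
  refine card_le_card_of_injOn (fun p => Function.update p.1 j0 p.2) (fun p hp => ?_)
    (fun p hp p' hp' h => ?_)
  · simp only [coe_product, Set.mem_prod, mem_coe, mem_filter, Fintype.mem_piFinset] at hp ⊢
    intro i
    by_cases hi : i = j0
    · subst hi
      simpa using hp.2
    · rw [Function.update_of_ne hi]
      exact hp.1.1 i
  · simp only [coe_product, Set.mem_prod, mem_coe, mem_filter, Fintype.mem_piFinset] at hp hp'
    have h1 : p.2 = p'.2 := by
      have := congrFun h j0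
      simpa using this
    have h2 : ∀ i, i ≠ j0 → p.1 i = p'.1 i := fun i hi => by
      have := congrFun h i
      simpa [Function.update_of_ne hi] using this
    have h3 : p.1 j0 = p'.1 j0 := by
      by_contra hne
      have h4 : (1 : ℝ) ≤ ‖((p.1 j0 - p'.1 j0 : ℤ) : ℂ)‖ := by
        rw [Complex.norm_intCast]
        have : (1 : ℤ) ≤ |p.1 j0 - p'.1 j0| := Int.one_le_abs (sub_ne_zero.2 hne)
        exact_mod_cast this
      have h5 : ∑ i, (p.1 i : ℂ) * w i - ∑ i, (p'.1 i : ℂ) * w i =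
          ((p.1 j0 - p'.1 j0 : ℤ) : ℂ) * w j0 := by
        rw [← sum_sub_distrib, sum_eq_single j0]
        · push_cast
          ring
        · intro i _ hi
          rw [h2 i hi, sub_self]
        · intro h
          exact absurd (mem_univ _) h
      have h6 : ‖w j0‖ < ‖w‖ := by
        calc ‖w j0‖ = 1 * ‖w j0‖ := (one_mul _).symm
          _ ≤ ‖((p.1 j0 - p'.1 j0 : ℤ) : ℂ)‖ * ‖w j0‖ :=
              mul_le_mul_of_nonneg_right h4 (norm_nonneg _)
          _ = ‖∑ i, (p.1 i : ℂ) * w i - ∑ i, (p'.1 i : ℂ) * w i‖ := by rw [h5, norm_mul]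
          _ ≤ ‖∑ i, (p.1 i : ℂ) * w i‖ + ‖∑ i, (p'.1 i : ℂ) * w i‖ := norm_sub_le _ _
          _ < ‖w‖ / 2 + ‖w‖ / 2 := add_lt_add hp.1.2 hp'.1.2
          _ = ‖w‖ := by ring
      exact absurd hw (not_le.2 h6)
    refine Prod.ext (funext fun i => ?_) h1
    by_cases hi : i = j0
    · rw [hi, h3]
    · exact h2 i hi

private theorem eps {κ : Type} [Fintype κ] [DecidableEq κ] (a : MvPolynomial κ ℤ)
    (T : Finset (κ → ℤ)) (hT : ∀ x ∈ T, eval x a ≠ 0) :
    ∃ ε : ℝ, 0 < ε ∧ ∀ x ∈ T, ∀ y : κ → ℂ, (∀ p, ‖y p - x p‖ < ε) → 1 / 2 ≤ ‖aeval y a‖ := by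
  induction T using Finset.induction_on with
  | empty => exact ⟨1, one_pos, fun x hx => absurd hx (notMem_empty _)⟩
  | insert x T hx ih =>
    obtain ⟨ε, hε, h⟩ := ih fun x' hx' => hT x' (mem_insert_of_mem hx')
    have hc : Continuous fun y : κ → ℂ => ‖aeval y a‖ := by
      have : (fun y : κ → ℂ => ‖aeval y a‖) =
          fun y => ‖eval y (map (algebraMap ℤ ℂ) a)‖ := by
        funext y
        rw [eval_map, aeval_def]
      rw [this]
      exact (MvPolynomial.continuous_eval _).norm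
    have h1 : aeval (fun p => ((x p : ℤ) : ℂ)) a = ((eval x a : ℤ) : ℂ) := by
      have := aeval_algebraMap_apply (A := ℤ) ℂ x a
      rw [ae] at this
      exact this
    have h2 : (1 / 2 : ℝ) < ‖aeval (fun p => ((x p : ℤ) : ℂ)) a‖ := by
      rw [h1, Complex.norm_intCast]
      have : (1 : ℤ) ≤ |eval x a| := Int.one_le_abs (hT x (mem_insert_self _ _))
      have : (1 : ℝ) ≤ |((eval x a : ℤ) : ℝ)| := by exact_mod_cast this
      linarith
    have h3 := hc.continuousAt.eventually (lt_mem_nhds h2)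
    obtain ⟨ε', hε', h4⟩ := Metric.eventually_nhds_iff.1 h3
    refine ⟨min ε ε', lt_min hε hε', fun x' hx' y hy => ?_⟩
    rcases mem_insert.1 hx' with rfl | hx'
    · refine (h4 ?_).le
      rw [dist_pi_lt_iff hε']
      intro p
      rw [dist_eq_norm]
      exact (hy p).trans_le (min_le_right _ _)
    · exact h x' hx' y fun p => (hy p).trans_le (min_le_left _ _)

private theorem gen {ι : Type} {ρ : ℕ} (ξ : ι → ℂ) (u' : Fin ρ × ι → ℂ) (u0 : ι → ℂ)
    (h1 : GenOver u' ξ) (h2 : GenOver u0 (Sum.elim ξ u')) : GenOver (full u0 u') ξ := by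
  unfold GenOver at *
  have hle : IntermediateField.adjoin ℚ (Set.range ξ) ≤
      IntermediateField.adjoin ℚ (Set.range (Sum.elim ξ u')) :=
    IntermediateField.adjoin.mono _ _ _ (by
      rintro _ ⟨i, rfl⟩
      exact ⟨Sum.inl i, rfl⟩)
  let _ : Algebra (IntermediateField.adjoin ℚ (Set.range ξ))
      (IntermediateField.adjoin ℚ (Set.range (Sum.elim ξ u'))) :=
    (IntermediateField.inclusion hle).toAlgebra
  have : IsScalarTower (IntermediateField.adjoin ℚ (Set.range ξ))
      (IntermediateField.adjoin ℚ (Set.range (Sum.elim ξ u'))) ℂ :=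
    .of_algebraMap_eq fun _ => rfl
  have h3 := h1.sumElim_of_tower
    (S := IntermediateField.adjoin ℚ (Set.range (Sum.elim ξ u'))) (by
      rintro _ ⟨p, rfl⟩
      exact ⟨⟨u' p, IntermediateField.subset_adjoin _ _ ⟨Sum.inr p, rfl⟩⟩, rfl⟩) h2
  let e : Fin (ρ + 1) × ι → ι ⊕ (Fin ρ × ι) := fun p =>
    Fin.cases (Sum.inl p.2) (fun i => Sum.inr (i, p.2)) p.1
  have he : Function.Injective e := by
    rintro ⟨i, j⟩ ⟨i', j'⟩
    refine Fin.cases ?_ (fun i => ?_) i <;> refine Fin.cases ?_ (fun i' => ?_) i'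
    · intro h
      have : j = j' := Sum.inl_injective h
      rw [this]
    · intro h
      exact absurd h (by simp [e])
    · intro h
      exact absurd h (by simp [e])
    · intro h
      have : (i, j) = (i', j') := Sum.inr_injective h
      rw [Prod.mk.injEq] at this
      rw [this.1, this.2]
  have h4 := h3.comp e he
  have h5 : Sum.elim u0 u' ∘ e = full u0 u' := by
    funext p
    obtain ⟨i, j⟩ := p
    refine Fin.cases ?_ (fun i => ?_) i <;> rfl
  rwa [h5] at h4

end UchAux

open Finset in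
theorem pUch (hGnx : S_Gnx) : S_Uch := by
  intro ι _ _ _ ρ k ξ a hk ha hdeg
  classical
  -- the integer point
  obtain ⟨x, hx, hxa⟩ : ∃ x : Fin (ρ + 1) × ι → ℤ, (∀ p, x p ∈ Finset.Icc (0 : ℤ) k) ∧
      eval x a ≠ 0 := by
    by_contra hcon
    push Not at hcon
    refine ha (eq_zero_of_eval_zero_at_prod_finset a (fun _ => Finset.Icc (0 : ℤ) k) ?_ hcon)
    intro p
    rw [Int.card_Icc]
    have := degreeOf_le_totalDegree a p
    omega
  set u00 : Fin ρ × ι → ℤ := lower x with hu00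
  set a0 : MvPolynomial ι ℤ :=
    aeval (full (fun j => (X j : MvPolynomial ι ℤ)) (fun p => C (u00 p))) a with ha0
  have hev : ∀ v : ι → ℤ, eval v a0 = eval (full v u00) a := by
    intro v
    rw [ha0]
    have h1 : (aeval v (aeval (full (fun j => (X j : MvPolynomial ι ℤ)) (fun p => C (u00 p))) a) : ℤ) =
        aeval (fun p => aeval v (full (fun j => (X j : MvPolynomial ι ℤ))
          (fun p => C (u00 p)) p)) a := by
      rw [← AlgHom.comp_apply, comp_aeval]
    rw [UchAux.ae, UchAux.ae] at h1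
    rw [h1]
    congr 2
    funext p
    obtain ⟨i, j⟩ := p
    refine Fin.cases ?_ (fun i => ?_) i
    · simp
    · simp
  have ha0ne : a0 ≠ 0 := by
    intro h
    have h1 := hev fun j => x (0, j)
    rw [h, map_zero, hu00, full_lower] at h1
    exact hxa h1.symm
  have ha0deg : a0.totalDegree ≤ k := by
    refine (UchAux.tdle a _ ?_).trans hdeg
    rintro ⟨i, j⟩
    refine Fin.cases ?_ (fun i => ?_) i
    · rw [full_zero]
      exact (totalDegree_X _).le
    · rw [full_succ, totalDegree_C]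
      exact zero_le_one
  set S : Finset ℤ := Finset.Icc (0 : ℤ) (2 * k : ℕ) with hS
  have hScard : #S = 2 * k + 1 := by
    rw [hS, Int.card_Icc]
    omega
  have hSne : S.Nonempty := by
    rw [← card_pos, hScard]
    omega
  set V : Finset (ι → ℤ) := Fintype.piFinset fun _ : ι => S with hV
  obtain ⟨ε₀, hε₀, hε₀'⟩ := UchAux.eps a ((V.filter fun v => eval v a0 ≠ 0).image
    fun v => full v u00) (by
      intro y hy
      obtain ⟨v, hv, rfl⟩ := mem_image.1 hy
      rw [← hev]
      exact (mem_filter.1 hv).2)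
  have hn : (0 : ℝ) < Fintype.card ι := by exact_mod_cast Fintype.card_pos
  set ε : ℝ := min ε₀ (min (1 / 2) (1 / (4 * Fintype.card ι))) with hε
  have hεpos : 0 < ε := by
    rw [hε]
    positivity
  have hε1 : ε ≤ 1 / 2 := (min_le_right _ _).trans (min_le_left _ _)
  have hε2 : ε ≤ 1 / (4 * Fintype.card ι) := (min_le_right _ _).trans (min_le_right _ _)
  obtain ⟨u', hu', hgen'⟩ := hGnx ι (Fin ρ × ι) ξ (fun p => (u00 p : ℂ)) ε hεpos
  refine ⟨u', hgen', fun p => ?_, fun Z hZ => ?_⟩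
  · have h1 : ‖((u00 p : ℤ) : ℂ)‖ ≤ k := by
      rw [Complex.norm_intCast]
      have h2 := mem_Icc.1 (hx (p.1.succ, p.2))
      have h3 : |u00 p| ≤ k := by
        rw [hu00]
        unfold lower
        rw [abs_le]
        constructor
        · have := h2.1
          have : (0 : ℤ) ≤ k := Int.natCast_nonneg k
          linarith
        · exact h2.2
      exact_mod_cast h3
    have h2 := hu' p
    calc ‖u' p‖ = ‖(u' p - u00 p) + u00 p‖ := by rw [sub_add_cancel]
      _ ≤ ‖u' p - u00 p‖ + ‖(u00 p : ℂ)‖ := norm_add_le _ _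
      _ ≤ 2 * k + 1 := by
        have : (0 : ℝ) ≤ k := Nat.cast_nonneg k
        linarith
  -- the good vector
  obtain ⟨v, hvV, hva, hvZ⟩ : ∃ v ∈ V, eval v a0 ≠ 0 ∧
      ∀ w ∈ Z, ‖w‖ / 2 ≤ ‖∑ i, (v i : ℂ) * w i‖ := by
    by_contra hcon
    push Not at hcon
    have h1 : V ⊆ (V.filter fun v => eval v a0 = 0) ∪
        Z.biUnion fun w => V.filter fun v => ‖∑ i, (v i : ℂ) * w i‖ < ‖w‖ / 2 := by
      intro v hv
      rw [mem_union]
      by_cases h : eval v a0 = 0
      · exact Or.inl (mem_filter.2 ⟨hv, h⟩)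
      · obtain ⟨w, hw, hw'⟩ := hcon v hv h
        exact Or.inr (mem_biUnion.2 ⟨w, hw, mem_filter.2 ⟨hv, hw'⟩⟩)
    have h2 := (card_le_card h1).trans (card_union_le _ _)
    have h3 := UchAux.sz a0 ha0ne S hSne
    have h4 : #(Z.biUnion fun w => V.filter fun v => ‖∑ i, (v i : ℂ) * w i‖ < ‖w‖ / 2) * #S ≤
        k * #S ^ Fintype.card ι := by
      calc _ ≤ (∑ w ∈ Z, #(V.filter fun v => ‖∑ i, (v i : ℂ) * w i‖ < ‖w‖ / 2)) * #S :=
            Nat.mul_le_mul_right _ card_biUnion_le
        _ = ∑ w ∈ Z, #(V.filter fun v => ‖∑ i, (v i : ℂ) * w i‖ < ‖w‖ / 2) * #S := sum_mul _ _ _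
        _ ≤ ∑ w ∈ Z, #S ^ Fintype.card ι := sum_le_sum fun w _ => UchAux.badw w S
        _ = #Z * #S ^ Fintype.card ι := by rw [sum_const, smul_eq_mul]
        _ ≤ _ := Nat.mul_le_mul_right _ hZ
    have h5 : #V = #S ^ Fintype.card ι := UchAux.cpf S
    have h6 : a0.totalDegree * #S ^ Fintype.card ι ≤ k * #S ^ Fintype.card ι :=
      Nat.mul_le_mul_right _ ha0deg
    have h7 : 0 < #S ^ Fintype.card ι := by
      rw [hScard]
      positivity
    rw [h5] at h2
    have h8 := Nat.mul_le_mul_right #S h2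
    rw [add_mul] at h8
    have h9 : #S ^ Fintype.card ι * #S ≤ 2 * k * #S ^ Fintype.card ι := by
      calc _ ≤ _ := h8
        _ ≤ k * #S ^ Fintype.card ι + k * #S ^ Fintype.card ι := add_le_add (h3.trans h6) h4
        _ = _ := by ring
    rw [hScard, mul_comm] at h9
    have h10 := Nat.le_of_mul_le_mul_right h9 (by positivity)
    omega
  obtain ⟨u0, hu0, hgen0⟩ := hGnx (ι ⊕ (Fin ρ × ι)) ι (Sum.elim ξ u') (fun j => (v j : ℂ)) ε hεpos
  refine ⟨u0, fun j => ?_, UchAux.gen ξ u' u0 hgen' hgen0, ?_, fun w hw j => ?_⟩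
  · have h1 : ‖((v j : ℤ) : ℂ)‖ ≤ 2 * k := by
      rw [Complex.norm_intCast]
      have h2 := mem_Icc.1 (Fintype.mem_piFinset.1 hvV j)
      have h3 : |v j| ≤ (2 * k : ℕ) := by
        rw [abs_le]
        exact ⟨by have := h2.1; omega, h2.2⟩
      exact_mod_cast h3
    have h2 := hu0 j
    calc ‖u0 j‖ = ‖(u0 j - v j) + v j‖ := by rw [sub_add_cancel]
      _ ≤ ‖u0 j - v j‖ + ‖(v j : ℂ)‖ := norm_add_le _ _
      _ ≤ 2 * k + 1 := by linarith
  · refine hε₀' (full v u00) (mem_image.2 ⟨v, mem_filter.2 ⟨hvV, hva⟩, rfl⟩) _ ?_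
    rintro ⟨i, j⟩
    refine Fin.cases ?_ (fun i => ?_) i
    · exact (hu0 j).trans_le (min_le_left _ _)
    · exact (hu' (i, j)).trans_le (min_le_left _ _)
  · have h1 := hvZ w hw
    have h2 : ‖∑ i, (v i : ℂ) * w i‖ - ‖∑ i, u0 i * w i‖ ≤ ‖w‖ / 4 := by
      calc ‖∑ i, (v i : ℂ) * w i‖ - ‖∑ i, u0 i * w i‖ ≤
            ‖∑ i, (v i : ℂ) * w i - ∑ i, u0 i * w i‖ := norm_sub_norm_le _ _
        _ = ‖∑ i, (v i - u0 i) * w i‖ := by
            rw [← sum_sub_distrib]
            congr 1
            exact sum_congr rfl fun i _ => by ring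
        _ ≤ ∑ i : ι, ε * ‖w‖ := by
            refine (norm_sum_le _ _).trans (sum_le_sum fun i _ => ?_)
            rw [norm_mul]
            refine mul_le_mul ?_ (norm_le_pi_norm w i) (norm_nonneg _) hεpos.le
            rw [norm_sub_rev]
            exact (hu0 i).le
        _ = Fintype.card ι * (ε * ‖w‖) := by
            rw [sum_const, card_univ, nsmul_eq_mul]
        _ ≤ Fintype.card ι * (1 / (4 * Fintype.card ι) * ‖w‖) := by
            gcongr
        _ = ‖w‖ / 4 := by
            field_simp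
    have h3 := norm_le_pi_norm w j
    linarith

end Pool.Agent.SMQ
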