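import Pool.Agent.Lib.MP_452a87_nt.SpecN

set_option autoImplicit false

namespace Pool.Agent.SMQ

open MvPolynomial

namespace UspAux

/-- The row `0` apart. -/
def eqv (ι : Type) (ρ : ℕ) : Fin (ρ + 1) × ι ≃ ι ⊕ (Fin ρ × ι) where
  toFun p := Fin.cases (motive := fun _ => ι ⊕ (Fin ρ × ι)) (Sum.inl p.2) (fun i => Sum.inr (i, p.2)) p.1
  invFun := Sum.elim (fun j => (0, j)) (fun p => (p.1.succ, p.2))
  left_inv := by
    rintro ⟨i, j⟩
    refine Fin.cases ?_ (fun i => ?_) i <;> rfl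
  right_inv := by
    rintro (j | ⟨i, j⟩)
    · rfl
    · rfl

@[simp] lemma eqv_zero (ι : Type) (ρ : ℕ) (j : ι) : eqv ι ρ (0, j) = Sum.inl j := rfl
@[simp] lemma eqv_succ (ι : Type) (ρ : ℕ) (i : Fin ρ) (j : ι) : eqv ι ρ (i.succ, j) = Sum.inr (i, j) := rfl

/-- The polynomial `a(V, u')`. -/
noncomputable def phi {ι : Type} {ρ : ℕ} (u' : Fin ρ × ι → ℂ) (a : MvPolynomial (Fin (ρ + 1) × ι) ℤ) :
    MvPolynomial ι ℂ :=
  MvPolynomial.map (aeval (R := ℤ) u').toRingHom
    (sumAlgEquiv ℤ ι (Fin ρ × ι) (rename (eqv ι ρ) a))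

lemma eval_phi {ι : Type} {ρ : ℕ} (u' : Fin ρ × ι → ℂ) (u0 : ι → ℂ) (a : MvPolynomial (Fin (ρ + 1) × ι) ℤ) :
    eval u0 (phi u' a) = aeval (full u0 u') a := by
  unfold phi
  induction a using MvPolynomial.induction_on with
  | C n => simp
  | add p q hp hq => simp only [map_add, hp, hq]
  | mul_X p i hp =>
    simp only [map_mul, hp]
    congr 1
    obtain ⟨i, j⟩ := i
    refine Fin.cases ?_ (fun i => ?_) i
    · simp [full_zero]
    · simp [full_succ]

lemma phi_ne_zero {ι : Type} {ρ : ℕ} (u' : Fin ρ × ι → ℂ) (hu : AlgebraicIndependent ℚ u')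
    (a : MvPolynomial (Fin (ρ + 1) × ι) ℤ) (ha : a ≠ 0) : phi u' a ≠ 0 := by
  have hu' : AlgebraicIndependent ℤ u' := hu.restrictScalars (by
    exact (algebraMap ℤ ℚ).injective_int)
  have h1 : Function.Injective (aeval (R := ℤ) u').toRingHom := hu'
  have h2 := MvPolynomial.map_injective (σ := ι) _ h1
  intro h
  unfold phi at h
  have h3 : sumAlgEquiv ℤ ι (Fin ρ × ι) (rename (eqv ι ρ) a) = 0 := by
    apply h2
    rw [h, map_zero]
  rw [EmbeddingLike.map_eq_zero_iff] at h3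
  exact ha (rename_injective _ (eqv ι ρ).injective (by rw [h3, map_zero]))

end UspAux

open UspAux in
theorem pUsp : S_Usp := by
  intro ι _ _ ρ a u' ha hu Z
  classical
  set B : MvPolynomial ι ℂ := phi u' a * ∏ w ∈ Z.filter (fun w => w ≠ 0), (∑ j, C (w j) * X j) with hB
  have hB0 : B ≠ 0 := by
    rw [hB]
    refine mul_ne_zero (phi_ne_zero u' hu a ha) (Finset.prod_ne_zero_iff.mpr ?_)
    intro w hw h
    have hw0 : w ≠ 0 := (Finset.mem_filter.mp hw).2
    apply hw0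
    funext j
    have := congrArg (eval (Pi.single j (1 : ℂ))) h
    simpa [Pi.single_apply] using this
  obtain ⟨u0, hu0⟩ : ∃ u0 : ι → ℂ, eval u0 B ≠ 0 := by
    by_contra hcon
    push Not at hcon
    exact hB0 (MvPolynomial.funext (fun x => by rw [hcon x, map_zero]))
  rw [hB, map_mul, map_prod, eval_phi] at hu0
  refine ⟨u0, left_ne_zero_of_mul hu0, ?_⟩
  intro w hw hw0
  have h1 := (Finset.prod_ne_zero_iff.mp (right_ne_zero_of_mul hu0)) w (Finset.mem_filter.mpr ⟨hw, hw0⟩)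
  intro h
  apply h1
  simp only [map_sum, map_mul, eval_C, eval_X]
  rw [← h]
  exact Finset.sum_congr rfl (fun j _ => mul_comm _ _)

end Pool.Agent.SMQ
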